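import Mathlib

namespace Pool.Agent.Results.MP_6eafb7_an.Pos

open Finset Nat

set_option maxHeartbeats 400000

/-- Generalized Bernoulli polynomials of natural order `a`, by their generating function. -/
noncomputable def B (a m : ℕ) (x : ℝ) : ℝ :=
  m ! * PowerSeries.coeff m (bernoulliPowerSeries ℝ ^ a * PowerSeries.rescale x (PowerSeries.exp ℝ))

section
open PowerSeries

noncomputable def c (a m : ℕ) (x : ℝ) : ℝ :=
  coeff m (bernoulliPowerSeries ℝ ^ a * rescale x (exp ℝ))

theorem trans (a m : ℕ) (x y : ℝ) :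
    c a m (x + y) = ∑ j ∈ range (m + 1), c a (m - j) x / j ! * y ^ j := by
  rw [c, add_comm x, ← exp_mul_exp_eq_exp_add, mul_left_comm, coeff_mul,
    Nat.sum_antidiagonal_eq_sum_range_succ_mk]
  refine sum_congr rfl fun j _ => ?_
  simp only [coeff_rescale, coeff_exp, c]
  simp; ring

theorem c0 (a : ℕ) (x : ℝ) : c a 0 x = 1 := by
  have h1 : constantCoeff (bernoulliPowerSeries ℝ) = 1 := by
    rw [← coeff_zero_eq_constantCoeff_apply, bernoulliPowerSeries, coeff_mk]; simp
  have h2 : constantCoeff (rescale x (exp ℝ)) = 1 := by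
    rw [← coeff_zero_eq_constantCoeff_apply, coeff_rescale]; simp
  rw [c, coeff_zero_eq_constantCoeff_apply, map_mul, map_pow, h1, h2]; simp

theorem diff (a m : ℕ) (x : ℝ) : c (a + 1) (m + 1) (x + 1) - c (a + 1) (m + 1) x = c a m x := by
  have h := bernoulliPowerSeries_mul_exp_sub_one ℝ
  rw [c, c, c, ← map_sub, ← exp_mul_exp_eq_exp_add, rescale_one, RingHom.id_apply,
    ← coeff_succ_mul_X m, ← h]
  congr 1; ring

theorem der (a m : ℕ) (x : ℝ) : HasDerivAt (c a (m + 1)) (c a m x) x := by
  have h1 : c a (m + 1) = fun y => ∑ j ∈ range (m + 1 + 1), c a (m + 1 - j) 0 / j ! * y ^ j :=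
    funext fun y => by rw [← trans, zero_add]
  rw [h1, ← zero_add x, trans, zero_add]
  have := HasDerivAt.fun_sum (u := range (m + 1 + 1))
    fun j _ => (hasDerivAt_pow j x).const_mul (c a (m + 1 - j) 0 / j !)
  refine this.congr_deriv (Eq.symm ?_)
  rw [sum_range_succ' _ (m + 1)]
  simp only [cast_zero, zero_mul, mul_zero, add_zero, Nat.add_sub_add_right, add_tsub_cancel_right]
  refine sum_congr rfl fun j _ => ?_
  rw [factorial_succ]; push_cast; field_simp

theorem recur (m : ℕ) (x : ℝ) :
    (m + 1) * c (m + 2) (m + 1) x = (x - (m + 1)) * c (m + 1) m x := by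
  have h := bernoulliPowerSeries_mul_exp_sub_one ℝ
  set G := bernoulliPowerSeries ℝ
  have h1 := congrArg (d⁄dX ℝ) h
  rw [Derivation.leibniz, map_sub, derivative_exp, derivative_one, derivative_X] at h1
  simp only [smul_eq_mul, sub_zero] at h1
  have h2 : X * d⁄dX ℝ G = G - G ^ 2 - X * G := by
    rw [← h]; linear_combination G * h1
  have h3 : d⁄dX ℝ (rescale x (exp ℝ)) = C x * rescale x (exp ℝ) := by
    ext n
    simp only [coeff_derivative, coeff_rescale, coeff_exp, coeff_C_mul, factorial_succ]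
    simp; field_simp; ring
  have h4 : d⁄dX ℝ (G ^ (m + 1) * rescale x (exp ℝ)) * X =
      C (m + 1 : ℝ) * (G ^ (m + 1) * rescale x (exp ℝ)) -
      C (m + 1 : ℝ) * (G ^ (m + 2) * rescale x (exp ℝ)) +
      C (x - (m + 1)) * (G ^ (m + 1) * rescale x (exp ℝ)) * X := by
    rw [Derivation.leibniz, derivative_pow, h3]
    simp only [smul_eq_mul, map_sub, map_add, map_natCast, map_one, add_tsub_cancel_right]
    push_cast
    linear_combination ((m + 1) * G ^ m * rescale x (exp ℝ)) * h2
  have h5 := congrArg (coeff (m + 1)) h4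
  simp only [coeff_succ_mul_X, coeff_derivative, map_add (coeff _), map_sub (coeff _),
    coeff_C_mul] at h5
  simp only [c]; linarith

theorem prod (m : ℕ) (x : ℝ) : m ! * c (m + 1) m x = ∏ i ∈ range m, (x - (i + 1)) := by
  induction m with
  | zero => simp [c0]
  | succ m ih =>
    rw [prod_range_succ, ← ih, factorial_succ]; push_cast
    linear_combination m ! * recur m x

end

theorem sgn (n m : ℕ) (hm : m ≤ n) : 0 < (-1) ^ (n - m) * c n n m := by
  obtain ⟨ξ, ⟨h1, h2⟩, h3⟩ := exists_hasDerivAt_eq_slope (c (n + 1) (n + 1)) (c (n + 1) n)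
    (show (m:ℝ) < m + 1 by linarith) (fun x _ => (der _ _ x).continuousAt.continuousWithinAt)
    fun x _ => der _ _ x
  rw [diff, add_sub_cancel_left, div_one] at h3
  obtain ⟨k, rfl⟩ := Nat.exists_eq_add_of_le hm
  have h4 : 0 < (-1) ^ k * ∏ i ∈ range (m + k), (ξ - (i + 1)) := by
    rw [prod_range_add, mul_left_comm]
    refine mul_pos (prod_pos fun i hi => ?_) ?_
    · have : (i + 1 : ℝ) ≤ m := by exact_mod_cast mem_range.1 hi
      linarith
    · nth_rw 1 [← card_range k]
      rw [← prod_neg]
      exact prod_pos fun i _ => by push_cast; linarith [(by positivity : (0:ℝ) ≤ i)]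
  rw [← prod, h3, mul_left_comm] at h4
  rw [add_tsub_cancel_left]
  exact (mul_pos_iff_of_pos_left (by positivity)).1 h4

theorem root (n m : ℕ) (hm : m < n) : ∃ r ∈ Set.Ioo (m:ℝ) (m + 1), c n n r = 0 := by
  obtain ⟨n, rfl⟩ : ∃ k, n = k + 1 := ⟨n - 1, by omega⟩
  have h1 := sgn (n + 1) m hm.le
  have h2 := sgn (n + 1) (m + 1) hm
  rw [show n + 1 - m = n + 1 - (m + 1) + 1 by omega, pow_succ] at h1
  set s : ℝ := (-1) ^ (n + 1 - (m + 1))
  have hc : Continuous fun x => s * c (n + 1) (n + 1) x :=
    continuous_const.mul (continuous_iff_continuousAt.2 fun x => (der _ _ x).continuousAt)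
  obtain ⟨r, r1, r2⟩ := intermediate_value_Ioo (show (m:ℝ) ≤ m + 1 by linarith) hc.continuousOn
    (show (0:ℝ) ∈ _ from ⟨by linarith, by exact_mod_cast h2⟩)
  exact ⟨r, r1, (mul_eq_zero.1 r2).resolve_left (by positivity)⟩

open Polynomial

theorem lag (s : Finset ℕ) (u v : ℕ → ℝ) (k : ℕ) :
    0 ≤ (-1) ^ k * ∑ j ∈ range (2 * k + 1), (-1) ^ j * (∏ i ∈ s, (C (u i) + C (v i) * X)).coeff j *
      (∏ i ∈ s, (C (u i) + C (v i) * X)).coeff (2 * k - j) := by
  classical
  have h1 : ∀ k, 0 ≤ (-1) ^ k *
      (∏ i ∈ s, (C (u i ^ 2) - C (v i ^ 2) * X ^ 2) : ℝ[X]).coeff (2 * k) := by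
    induction s using Finset.induction_on with
    | empty =>
      intro k; rw [prod_empty, coeff_one]
      split_ifs with h
      · simp [show k = 0 by omega]
      · simp
    | insert a s ha ih =>
      intro k
      rw [prod_insert ha, sub_mul, mul_assoc, coeff_sub, coeff_C_mul, coeff_C_mul]
      rcases k with _ | k
      · rw [coeff_X_pow_mul', if_neg (by omega)]
        nlinarith [ih 0, sq_nonneg (u a)]
      · rw [show 2 * (k + 1) = 2 * k + 2 by ring, coeff_X_pow_mul]
        have := ih (k + 1)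
        rw [show 2 * (k + 1) = 2 * k + 2 by ring] at this
        have h2 := mul_nonneg (sq_nonneg (u a)) this
        have h3 := mul_nonneg (sq_nonneg (v a)) (ih k)
        rw [pow_succ (-1:ℝ)] at *
        linarith
  have h2 : (∏ i ∈ s, (C (u i ^ 2) - C (v i ^ 2) * X ^ 2) : ℝ[X]) =
      (∏ i ∈ s, (C (u i) + C (v i) * X)).comp (C (-1) * X) * ∏ i ∈ s, (C (u i) + C (v i) * X) := by
    rw [Polynomial.prod_comp, ← prod_mul_distrib]
    exact prod_congr rfl fun i _ => by simp; ring
  have := h1 k
  rw [h2, coeff_mul, Nat.sum_antidiagonal_eq_sum_range_succ_mk] at this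
  simpa only [comp_C_mul_X_coeff, mul_comm _ ((-1:ℝ) ^ _)] using this

theorem result (n : ℕ) (x : ℝ) :
    (∀ k, 2 * k ≤ n → 0 ≤ (-1) ^ k * ∑ j ∈ range (2 * k + 1),
      (-1) ^ j * (n.choose j : ℝ) * n.choose (2 * k - j) * B n (n - j) x * B n (n - 2 * k + j) x) ∧
    (∀ k, 2 * k ≤ n → 0 ≤ (-1) ^ k * ∑ j ∈ range (2 * k + 1),
      (-1) ^ j * (n.choose j : ℝ) * n.choose (2 * k - j) * B n j x * B n (2 * k - j) x) := by
  choose! r r1 r2 using root n
  let S : ℝ[X] := ∑ j ∈ range (n + 1), monomial j (n ! * (c n (n - j) x / j !))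
  have s1 : ∀ j ≤ n, S.coeff j = n.choose j * B n (n - j) x := fun j hj => by
    rw [finsetSum_coeff, sum_eq_single_of_mem j (mem_range.2 (by omega))
      fun i _ h => by rw [coeff_monomial, if_neg h], coeff_monomial_same, cast_choose ℝ hj, B, c]
    field_simp
  have s2 : S.natDegree ≤ n := natDegree_sum_le_of_forall_le _ _ fun j hj =>
    (natDegree_monomial_le _).trans (by have := mem_range.1 hj; omega)
  have s3 : S.coeff n = 1 := by rw [s1 n le_rfl, Nat.sub_self, B, ← c, c0]; simp
  have s4 : S = ∏ i ∈ range n, (X - C (r i - x)) := by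
    have m1 := monic_of_natDegree_le_of_coeff_eq_one n s2 s3
    have m2 := monic_prod_X_sub_C (fun i => r i - x) (range n)
    have d1 : S.degree = n := by
      rw [degree_eq_natDegree m1.ne_zero, natDegree_eq_of_le_of_coeff_ne_zero s2 (by simp [s3])]
    refine eq_of_degree_sub_lt_of_eval_index_eq (range n) (v := fun i => r i - x)
      (fun i hi j hj h => ?_) ?_ fun i hi => ?_
    · have a := r1 i (mem_range.1 hi)
      have b := r1 j (mem_range.1 hj)
      have e : r i = r j := by simpa using h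
      have a1 : i < j + 1 := by exact_mod_cast (by linarith [a.1, b.2] : (i:ℝ) < j + 1)
      have a2 : j < i + 1 := by exact_mod_cast (by linarith [a.2, b.1] : (j:ℝ) < i + 1)
      omega
    · rw [card_range, ← d1]
      refine degree_sub_lt ?_ m1.ne_zero (m1.trans m2.symm)
      rw [d1, degree_prod]; simp [degree_X_sub_C, -map_sub]
    · rw [eval_prod, prod_eq_zero hi (by simp), eval_finsetSum]
      have := trans n n x (r i - x)
      rw [add_sub_cancel, r2 i (mem_range.1 hi)] at this
      simp only [eval_monomial, mul_assoc, ← mul_sum, ← this, mul_zero]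
  have s5 : reflect n S = ∏ i ∈ range n, (C 1 + C (x - r i) * X) := by
    rw [s4]
    have : ∀ m, reflect m (∏ i ∈ range m, (X - C (r i - x))) =
        ∏ i ∈ range m, (C 1 + C (x - r i) * X) := fun m => by
      induction m with
      | zero => simp
      | succ m ih =>
        rw [prod_range_succ, prod_range_succ, reflect_mul _ _ (by
          rw [natDegree_finsetProd_X_sub_C_eq_card, card_range]) (natDegree_X_sub_C_le _), ih]
        congr 1; simp; ring
    exact this n
  refine ⟨fun k hk => (lag (range n) (fun i => x - r i) (fun _ => 1) k).trans_eq ?_,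
    fun k hk => (lag (range n) (fun _ => 1) (fun i => x - r i) k).trans_eq ?_⟩
  · rw [show ∏ i ∈ range n, (C (x - r i) + C 1 * X) = S from
      s4 ▸ prod_congr rfl fun i _ => by simp; ring]
    refine congrArg _ (sum_congr rfl fun j hj => ?_)
    have := mem_range.1 hj
    rw [s1 j (by omega), s1 _ (by omega), show n - (2 * k - j) = n - 2 * k + j by omega]; ring
  · rw [← s5]
    refine congrArg _ (sum_congr rfl fun j hj => ?_)
    have := mem_range.1 hj
    rw [coeff_reflect, coeff_reflect, revAt_le (by omega), revAt_le (by omega), s1 _ (by omega),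
      s1 _ (by omega), choose_symm (by omega), choose_symm (by omega),
      Nat.sub_sub_self (by omega), Nat.sub_sub_self (by omega)]; ring

end Pool.Agent.Results.MP_6eafb7_an.Pos
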